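import Pool.Agent.Work.MP_223b32_tl.Interface

/-! DIV: a relation not divisible by the cyclotomic polynomial gives the cofactor. -/

set_option autoImplicit false

namespace Pool.Agent.Work.TL

open Finset Polynomial

theorem stmt_DIV : Stmt_DIV := by
  intro I hsat P Ψ d hd hΨ hP hnd
  have hinj : Function.Injective (algebraMap ℤ ℚ) := (algebraMap ℤ ℚ).injective_int
  have hnd' : ¬ cyclotomic d ℚ ∣ P.map (algebraMap ℤ ℚ) := by
    rw [← map_cyclotomic d (algebraMap ℤ ℚ), Polynomial.map_dvd_map _ hinj (cyclotomic.monic d ℤ)]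
    exact hnd
  obtain ⟨a, b, hab⟩ := (cyclotomic.irreducible_rat hd).coprime_iff_not_dvd.mpr hnd'
  obtain ⟨m₁, hM₁, hm₁⟩ := IsLocalization.integerNormalization_spec (nonZeroDivisors ℤ) a
  obtain ⟨m₂, hM₂, hm₂⟩ := IsLocalization.integerNormalization_spec (nonZeroDivisors ℤ) b
  set A := IsLocalization.integerNormalization (nonZeroDivisors ℤ) a with hA
  set B := IsLocalization.integerNormalization (nonZeroDivisors ℤ) b with hB
  have key : C m₂ * A * cyclotomic d ℤ + C m₁ * B * P = C (m₁ * m₂) := by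
    apply Polynomial.map_injective (algebraMap ℤ ℚ) hinj
    simp only [Polynomial.map_add, Polynomial.map_mul, Polynomial.map_C, map_cyclotomic]
    rw [hm₁, hm₂]
    have e1 : (m₁ • a : ℚ[X]) = C (algebraMap ℤ ℚ m₁) * a := by
      rw [zsmul_eq_mul, eq_intCast, map_intCast]
    have e2 : (m₂ • b : ℚ[X]) = C (algebraMap ℤ ℚ m₂) * b := by
      rw [zsmul_eq_mul, eq_intCast, map_intCast]
    rw [e1, e2, map_mul, C_mul]
    linear_combination C (algebraMap ℤ ℚ m₁) * C (algebraMap ℤ ℚ m₂) * hab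
  have hm : m₁ * m₂ ≠ 0 := mul_ne_zero (nonZeroDivisors.ne_zero hM₁)
    (nonZeroDivisors.ne_zero hM₂)
  refine hsat _ hm Ψ ?_
  rw [← key, add_mul]
  refine I.add_mem ?_ ?_
  · rw [mul_assoc]
    exact I.mul_mem_left _ hΨ
  · rw [mul_right_comm]
    exact I.mul_mem_left _ hP

end Pool.Agent.Work.TL
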