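import Pool.Agent.Work.MP_223b32_tl.Interface

/-! TR: identities for traces. -/

set_option autoImplicit false

namespace Pool.Agent.Work.TL

open Finset Polynomial Pool.Agent.Work.TC

namespace TR

instance charP_Om : CharP Om 2 :=
  charP_of_injective_algebraMap (algebraMap (ZMod 2) Om).injective 2

theorem natCast_sq (a : ℕ) : ((a : Om)) ^ 2 = (a : Om) := by
  have : ((a : ZMod 2)) ^ 2 = (a : ZMod 2) := by
    rw [ZMod.pow_card]
  have h := congrArg (algebraMap (ZMod 2) Om) this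
  rwa [map_pow, map_natCast] at h

theorem ZZ_sq (n : ℕ) (r : ℕ → ℕ) (z : Om) : ZZ n r z ^ 2 = ZZ n r (z ^ 2) := by
  unfold ZZ
  rw [CharTwo.sum_sq]
  refine Finset.sum_congr rfl fun k _ => ?_
  rw [mul_pow, natCast_sq, ← pow_mul, ← pow_mul, mul_comm 2]

theorem cast_eq_of_modEq {a b : ℕ} (h : a ≡ b [MOD 2]) : (a : Om) = (b : Om) := by
  have : ((a : ZMod 2)) = (b : ZMod 2) := (ZMod.natCast_eq_natCast_iff a b 2).mpr h
  have h := congrArg (algebraMap (ZMod 2) Om) this
  simpa using h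

theorem tele (f : ℕ → Om) (g : ℕ) : ∑ i ∈ range g, (f i + f (i + 1)) = f 0 + f g := by
  induction g with
  | zero => simp [CharTwo.add_self_eq_zero]
  | succ g ih =>
    rw [Finset.sum_range_succ, ih]
    linear_combination CharTwo.add_self_eq_zero (f g)

theorem ZZ_add_inv (n : ℕ) (r : ℕ → ℕ) (z : Om) (e g : ℕ) (hg : n = 2 * g + 1) (hz : z ^ n = 1)
    (hz1 : z ≠ 1) (hsym : ∀ k, 1 ≤ k → k ≤ g → r (n - k) ≡ r k + e [MOD 2]) :
    ZZ n r z + ZZ n r z⁻¹ = (e : Om) := by
  have hz0 : z ≠ 0 := by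
    rintro rfl
    rw [zero_pow (by omega)] at hz
    exact zero_ne_one hz
  have hn : 1 ≤ n := by omega
  have h1 : ZZ n r z = (r n : Om) + ∑ k ∈ Ico 1 n, (r k : Om) * z ^ (n - k) := by
    unfold ZZ
    rw [← Finset.Ico_succ_right_eq_Icc, Order.succ_eq_add_one, Finset.sum_Ico_succ_top hn]
    simp [add_comm]
  have h2 : ZZ n r z⁻¹ = (r n : Om) + ∑ k ∈ Ico 1 n, (r (n - k) : Om) * z ^ (n - k) := by
    unfold ZZ
    rw [← Finset.Ico_succ_right_eq_Icc, Order.succ_eq_add_one, Finset.sum_Ico_succ_top hn]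
    simp only [Nat.sub_self, pow_zero, mul_one]
    rw [add_comm]
    congr 1
    -- reflect
    have : ∀ k ∈ Ico 1 n, (r (n - k) : Om) * z ^ (n - k) =
        (fun j => (r j : Om) * z ^ j) (n - k) := fun k _ => rfl
    rw [Finset.sum_congr rfl this]
    have hrefl : ∑ k ∈ Ico 1 n, (fun j => (r j : Om) * z ^ j) (n - k) =
        ∑ k ∈ Ico 1 n, (fun j => (r j : Om) * z ^ j) k := by
      refine Finset.sum_nbij' (fun k => n - k) (fun k => n - k) ?_ ?_ ?_ ?_ ?_
      · intro k hk; rw [Finset.mem_Ico] at *; omega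
      · intro k hk; rw [Finset.mem_Ico] at *; omega
      · intro k hk; rw [Finset.mem_Ico] at *; omega
      · intro k hk; rw [Finset.mem_Ico] at *; omega
      · intro k _; rfl
    rw [hrefl]
    refine Finset.sum_congr rfl fun k hk => ?_
    rw [Finset.mem_Ico] at hk
    congr 1
    rw [inv_pow]
    have : z ^ (n - k) * z ^ k = 1 := by rw [← pow_add, Nat.sub_add_cancel hk.2.le, hz]
    rw [eq_comm, ← one_div, eq_div_iff (pow_ne_zero _ hz0), mul_comm]
    exact this
  have hgeom : ∑ k ∈ Ico 1 n, z ^ (n - k) = 1 := by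
    have hs : ∑ k ∈ range n, z ^ k = 0 := by
      have := mul_geom_sum z n
      rw [hz, sub_self] at this
      rcases mul_eq_zero.mp this with h | h
      · exact absurd (sub_eq_zero.mp h) hz1
      · exact h
    have hr : ∑ k ∈ Ico 1 n, z ^ (n - k) = ∑ k ∈ Ico 1 n, z ^ k := by
      refine Finset.sum_nbij' (fun k => n - k) (fun k => n - k) ?_ ?_ ?_ ?_ ?_
      · intro k hk; rw [Finset.mem_Ico] at *; omega
      · intro k hk; rw [Finset.mem_Ico] at *; omega
      · intro k hk; rw [Finset.mem_Ico] at *; omega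
      · intro k hk; rw [Finset.mem_Ico] at *; omega
      · intro k _; rfl
    rw [hr]
    rw [Finset.range_eq_Ico, Finset.sum_eq_sum_Ico_succ_bot (by omega), pow_zero, zero_add] at hs
    have h3 := CharTwo.add_self_eq_zero (1 : Om)
    linear_combination hs - h3
  rw [h1, h2]
  have h4 : ∀ k ∈ Ico 1 n, (r k : Om) * z ^ (n - k) + (r (n - k) : Om) * z ^ (n - k) =
      (e : Om) * z ^ (n - k) := by
    intro k hk
    rw [Finset.mem_Ico] at hk
    rw [← add_mul]
    congr 1
    rcases le_or_gt k g with hkg | hkg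
    · have := cast_eq_of_modEq (hsym k hk.1 hkg)
      rw [this]
      push_cast
      linear_combination CharTwo.add_self_eq_zero (r k : Om)
    · have := cast_eq_of_modEq (hsym (n - k) (by omega) (by omega))
      rw [Nat.sub_sub_self hk.2.le] at this
      rw [this]
      push_cast
      linear_combination CharTwo.add_self_eq_zero (r (n - k) : Om)
  have h5 : ∑ k ∈ Ico 1 n, (r k : Om) * z ^ (n - k) + ∑ k ∈ Ico 1 n, (r (n - k) : Om) * z ^ (n - k)
      = (e : Om) := by
    rw [← Finset.sum_add_distrib, Finset.sum_congr rfl h4, ← Finset.mul_sum, hgeom, mul_one]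
  linear_combination h5 + CharTwo.add_self_eq_zero (r n : Om)

end TR

theorem stmt_TR : Stmt_TR := by
  intro n g η q ρ σ r ζ al be w v h
  have hn : n = 2 * g + 1 := h.two_g
  have hsq : ∀ i, ρ (w i) ^ 2 = ρ (w (i + 1)) := by
    intro i
    rw [h.red_w, h.red_w, TR.ZZ_sq, ← pow_mul, pow_succ]
  have hsum : ∑ i ∈ range g, (ρ (w i) + ρ (w i) ^ 2) = ρ (w 0) + ρ (w g) := by
    simp_rw [hsq]
    exact TR.tele (fun i => ρ (w i)) g
  have hz1 : ζ ^ n = 1 := h.zeta
  have hpow : ∀ a b : ℕ, (a : ZMod n) = (b : ZMod n) → ζ ^ a = ζ ^ b := by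
    intro a b hab
    have := (ZMod.natCast_eq_natCast_iff a b n).mp hab
    exact pow_eq_pow_of_modEq this hz1
  have hz0 : ζ ≠ 0 := by
    rintro rfl
    rw [zero_pow (by omega)] at hz1
    exact zero_ne_one hz1
  have hw0 : ρ (w 0) = ZZ n r ζ := by rw [h.red_w, pow_zero, pow_one]
  have hm1 : η = -1 → ρ (w 0) + ρ (w g) = (eps q : Om) := by
    intro hη
    have hg : ζ ^ 2 ^ g = ζ⁻¹ := by
      have h2 := h.two
      rw [hη] at h2
      have h3 : ((2 ^ g + 1 : ℕ) : ZMod n) = ((0 : ℕ) : ZMod n) := by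
        push_cast
        rw [h2]
        push_cast
        ring
      have h4 := hpow _ _ h3
      rw [pow_zero, pow_succ] at h4
      exact eq_inv_of_mul_eq_one_left h4
    rw [hw0, h.red_w g, hg]
    exact TR.ZZ_add_inv n r ζ (eps q) g hn hz1 h.zeta_ne h.sym
  refine ⟨?_, ?_, ?_⟩
  · intro hη
    rw [hsum]
    have hg : ζ ^ 2 ^ g = ζ := by
      have h2 := h.two
      rw [hη] at h2
      have h3 : ((2 ^ g : ℕ) : ZMod n) = ((1 : ℕ) : ZMod n) := by
        push_cast
        rw [h2]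
        push_cast
        ring
      have h4 := hpow _ _ h3
      rwa [pow_one] at h4
    rw [hw0, h.red_w g, hg]
    exact CharTwo.add_self_eq_zero _
  · intro hη
    rw [hsum, hm1 hη]
  · intro g' hg' hη x hx
    have h1 : x ^ 2 = ∑ k ∈ range g', (ρ (w (2 * k + 1)) + ρ (w (2 * (k + 1)))) := by
      rw [hx, CharTwo.sum_sq]
      refine Finset.sum_congr rfl fun k _ => ?_
      rw [CharTwo.add_sq, hsq, hsq, show 2 * (k + 1) = 2 * k + 1 + 1 by ring]
    have h2 : x = ∑ k ∈ range g', (ρ (w (2 * k)) + ρ (w (2 * k + 1))) := by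
      rw [hx]
      refine Finset.sum_congr rfl fun k _ => ?_
      rw [hsq]
    have h3 : x ^ 2 + x = ∑ k ∈ range g', (ρ (w (2 * k)) + ρ (w (2 * (k + 1)))) := by
      rw [h1]
      conv_lhs => rw [h2]
      rw [← Finset.sum_add_distrib]
      refine Finset.sum_congr rfl fun k _ => ?_
      linear_combination CharTwo.add_self_eq_zero (ρ (w (2 * k + 1)))
    rw [h3, TR.tele (fun k => ρ (w (2 * k))) g', mul_zero, ← hg']
    exact hm1 hη

end Pool.Agent.Work.TL
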